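import Mathlib
import Pool.Agent.H54.Sev

namespace Pool.Agent.Results.MP_48d34c_nt.Div

open Finset Pool.Agent.H54.Sev

theorem result (n : ℕ) (hn : 1 < n) :
    (2 * (n : ℤ) ^ 3 * ((2 * n).choose n : ℤ) ^ 3 ∣
      ∑ k ∈ range n, (21 * (k : ℤ) ^ 3 + 22 * (k : ℤ) ^ 2 + 8 * k + 1) * ((2 * k).choose k : ℤ) ^ 7 * 256 ^ (n - 1 - k)) ∧
    (2 * (n : ℤ) ^ 3 * ((2 * n).choose n : ℤ) ^ 3 ∣
      ∑ k ∈ range n, (168 * (k : ℤ) ^ 3 + 76 * (k : ℤ) ^ 2 + 14 * k + 1) * ((2 * k).choose k : ℤ) ^ 7 *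
        2 ^ (20 * (n - 1 - k))) := by
  obtain ⟨m, rfl⟩ : ∃ m, n = m + 1 + 1 := ⟨n - 2, by omega⟩
  obtain ⟨x, hx⟩ := b_int m
  obtain ⟨y, hy⟩ := b2_int m
  have e1 := sum_eq b 256 (fun k => 21 * (k : ℚ) ^ 3 + 22 * (k : ℚ) ^ 2 + 8 * k + 1) b0 (by simp)
    (fun n => by rw [b_rec]; push_cast; ring) (m + 1)
  have e2 := sum_eq b2 (2 ^ 20) (fun k => 168 * (k : ℚ) ^ 3 + 76 * (k : ℚ) ^ 2 + 14 * k + 1) b20 (by simp)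
    (fun n => by rw [b2_rec]; push_cast; ring) (m + 1)
  rw [hx] at e1
  rw [hy] at e2
  simp only [← pow_mul] at e2
  exact ⟨⟨x, by exact_mod_cast e1⟩, ⟨y, by exact_mod_cast e2⟩⟩

end Pool.Agent.Results.MP_48d34c_nt.Div
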